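import Pool.Agent.Work.MP_1151e3_an.Act
import Pool.Agent.Work.MP_1151e3_an.BSG
import Pool.Agent.Work.MP_1151e3_an.Bad
import Pool.Agent.Work.MP_1151e3_an.Cap
import Pool.Agent.Work.MP_1151e3_an.Cell
import Pool.Agent.Work.MP_1151e3_an.ContPosB
import Pool.Agent.Work.MP_1151e3_an.Corr
import Pool.Agent.Work.MP_1151e3_an.Dens
import Pool.Agent.Work.MP_1151e3_an.Dyad
import Pool.Agent.Work.MP_1151e3_an.Extract
import Pool.Agent.Work.MP_1151e3_an.Factor
import Pool.Agent.Work.MP_1151e3_an.Final
import Pool.Agent.Work.MP_1151e3_an.FroCompact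
import Pool.Agent.Work.MP_1151e3_an.Frost
import Pool.Agent.Work.MP_1151e3_an.Graph
import Pool.Agent.Work.MP_1151e3_an.Her
import Pool.Agent.Work.MP_1151e3_an.IBP
import Pool.Agent.Work.MP_1151e3_an.Incr
import Pool.Agent.Work.MP_1151e3_an.KerFacts
import Pool.Agent.Work.MP_1151e3_an.KeyThm
import Pool.Agent.Work.MP_1151e3_an.Main
import Pool.Agent.Work.MP_1151e3_an.Near
import Pool.Agent.Work.MP_1151e3_an.Pack
import Pool.Agent.Work.MP_1151e3_an.Paths
import Pool.Agent.Work.MP_1151e3_an.Pop
import Pool.Agent.Work.MP_1151e3_an.Q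
import Pool.Agent.Work.MP_1151e3_an.Quot
import Pool.Agent.Work.MP_1151e3_an.Rich
import Pool.Agent.Work.MP_1151e3_an.Ring
import Pool.Agent.Work.MP_1151e3_an.Ring0
import Pool.Agent.Work.MP_1151e3_an.Ring1
import Pool.Agent.Work.MP_1151e3_an.SM
import Pool.Agent.Work.MP_1151e3_an.Select
import Pool.Agent.Work.MP_1151e3_an.Slope
import Pool.Agent.Work.MP_1151e3_an.Sup
import Pool.Agent.Work.MP_1151e3_an.Words

/-!
# Open intervals in shifted products of fractal sets: the threshold `2/n` can be lowered
-/

set_option autoImplicit false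

namespace Pool.Agent.Results.MP_1151e3_an.LowerThreshold

open MeasureTheory Set Pool.Agent.Work.MP_1151e3_an

/-- For every `n ≥ 3` there is `ε` with `0 < ε < 2/n` such that for every Borel set `A` of reals
with Hausdorff dimension larger than `2/n - ε` some shifted product
`(t_1 + A) (t_2 + A) ... (t_n + A)` contains a nonempty open interval. -/
theorem result : ∀ n : ℕ, 3 ≤ n → ∃ ε : ℝ, 0 < ε ∧ ε < 2 / n ∧ ∀ A : Set ℝ, MeasurableSet A →
    ENNReal.ofReal (2 / n - ε) < dimH A →
    ∃ (t : Fin n → ℝ) (p q : ℝ), p < q ∧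
      Ioo p q ⊆ {x | ∃ a : Fin n → ℝ, (∀ i, a i ∈ A) ∧ x = ∏ i, (t i + a i)} := by
  have hKer := claimKer
  have hPack := claimPack
  have hSM := claimSM claimIBP claimCorr claimDyad
  have hRich := claimRich claimQ hKer hPack
  have hRing := claimRing (claimRing0 hSM claimGood hKer) claimRing1
  have hFinal := claimFinal hRing claimAct (claimNear hPack) (claimCell hPack)
    (claimSlope claimGraph hRich)
  have hK := claimK (claimBSG claimGraph hRich claimPaths claimQuot) claimPop (claimWords hPack)
    hFinal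
  have hBad := claimBad hK (claimHer hKer) claimExtract
  have hSelect := claimSelect hBad hSM claimGood hKer (claimFactor hKer) (claimSup hKer)
  have hFrost := claimFrost claimContPosB (claimCap claimIncr) claimFroCompact
  have hMain := claimMain hFrost hSelect (claimDens hKer)
  intro n hn
  obtain ⟨ε, hε, h⟩ := hMain n hn
  have hn0 : (0 : ℝ) < n := by
    have : 0 < n := by omega
    exact_mod_cast this
  refine ⟨min ε (1 / n), lt_min hε (by positivity), ?_, ?_⟩
  · refine lt_of_le_of_lt (min_le_right _ _) ?_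
    rw [div_lt_div_iff_of_pos_right hn0]
    norm_num
  · intro A hA hdim
    refine h A hA (lt_of_le_of_lt (ENNReal.ofReal_le_ofReal ?_) hdim)
    have := min_le_left ε (1 / (n : ℝ))
    linarith

end Pool.Agent.Results.MP_1151e3_an.LowerThreshold
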